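import Pool.Agent.Lib.helper4.SmallPart

namespace Pool.Agent.Results.MP_e349a0_al.AlephOne

open Cardinal hiding univ
open Set Pointwise Pool.Agent.H4Large Pool.Agent.H4Small

universe u

/-- `A` is left `μ`-large: `G = F A` for some `F` with `|F| < μ`. -/
def LeftLarge {G : Type u} [Group G] (μ : Cardinal.{u}) (A : Set G) : Prop :=
  ∃ F : Set G, #F < μ ∧ F * A = univ

/-- `A` is right `μ`-large: `G = A F` for some `F` with `|F| < μ`. -/
def RightLarge {G : Type u} [Group G] (μ : Cardinal.{u}) (A : Set G) : Prop :=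
  ∃ F : Set G, #F < μ ∧ A * F = univ

lemma colouring (G : Type u) [Group G] [Infinite G] :
    ∃ c : G → G, ∀ i, Large (ℵ_ 1) (c ⁻¹' {i}) := by
  rcases (aleph0_le_mk G).lt_or_eq with h0 | h0
  swap
  · have : #(univ : Set G) < ℵ_ 1 := by rw [mk_univ, ← h0]; exact aleph0_lt_aleph_one
    exact ⟨id, fun i => ⟨⟨univ, this, eq_univ_of_forall fun x => ⟨x * i⁻¹, trivial, i, rfl, by simp⟩⟩,
      ⟨univ, this, eq_univ_of_forall fun x => ⟨i, rfl, i⁻¹ * x, trivial, by simp⟩⟩⟩⟩
  obtain ⟨r, wo, hr⟩ := Cardinal.exists_ord_eq G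
  have key : ∀ (j : G) (prev : ∀ i, r i j → G),
      ∃ x, x ∉ Subgroup.closure (range fun i : {i // r i j} => prev i.1 i.2) := by
    intro j prev
    by_contra hn
    push Not at hn
    have h1 : #G ≤ #(Subgroup.closure (range fun i : {i // r i j} => prev i.1 i.2)) :=
      mk_le_of_injective (f := fun g => ⟨g, hn g⟩) fun a b e => congrArg Subtype.val e
    have h2 := Cardinal.card_typein_lt j hr
    rw [Ordinal.card_typein] at h2
    exact absurd (h1.trans (closure_card _)) (not_le.2 (max_lt (mk_range_le.trans_lt h2) h0))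
  choose F hF using key
  let g : G → G := wo.wf.fix F
  have hg : ∀ j, g j = F j fun i _ => g i := fun j => wo.wf.fix_eq F j
  let C : Ordinal.{u} → Subgroup G := fun o => Subgroup.closure (g '' {j | Ordinal.typein r j < o})
  have hC : Monotone C := fun a b hab =>
    Subgroup.closure_mono (image_mono fun k (hk : Ordinal.typein r k < a) =>
      show Ordinal.typein r k < b from hk.trans_le hab)
  have g1 : ∀ i, g i ∈ C (Order.succ (Ordinal.typein r i)) := fun i =>
    Subgroup.subset_closure ⟨i, show Ordinal.typein r i < _ from Order.lt_succ _, rfl⟩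
  have g2 : ∀ i, g i ∉ C (Ordinal.typein r i) := by
    intro i h
    refine hF i (fun j _ => g j) (hg i ▸ Subgroup.closure_mono ?_ h)
    rintro _ ⟨j, hj, rfl⟩
    exact ⟨⟨j, (Ordinal.typein_lt_typein r).1 hj⟩, rfl⟩
  have hw : Function.Injective (Ordinal.typein r) := Ordinal.typein_injective r
  let L : G → Set G := fun i => {x | mR (Ordinal.typein r) (C (Order.succ (Ordinal.typein r i))) x
    ≠ mR (Ordinal.typein r) (C (Ordinal.typein r i)) x}
  have L1 : ∀ i x, x ∈ L i ∨ g i * x ∈ L i := by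
    intro i x
    by_contra hn
    simp only [L, mem_ofPred_eq, not_or, not_not, mR_mul _ (g1 i)] at hn
    exact g2 i (by simpa using mR_eq hw (hn.1.symm.trans hn.2))
  have L2 : ∀ x, {i | x ∈ L i}.Finite := by
    intro x
    have hf : Antitone fun o => mR (Ordinal.typein r) (C o) x := fun a b h => mR_anti _ (hC h) x
    refine Set.Finite.of_finite_image (f := fun i => Order.succ (Ordinal.typein r i))
      ((first_finite _ hf).subset ?_) fun a _ b _ e => hw (Order.succ_injective e)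
    rintro _ ⟨i, hi, rfl⟩ α hα e
    exact hi (le_antisymm (hf (Order.le_succ _)) (e ▸ hf (Order.lt_succ_iff.1 hα)))
  obtain ⟨s, hs⟩ := le_mk_iff_exists_set.1 h0.le
  have hH : #(Subgroup.closure s) = ℵ₀ := by rw [closure_card_eq hs.ge, hs]
  set H := Subgroup.closure s
  have hHc : (H : Set G).Countable := le_aleph0_iff_set_countable.1 hH.le
  let B : G → Set G := fun i => {x | ∃ a ∈ H, ∃ b ∈ H, a * x * b ∈ L i ∨ (a * x * b)⁻¹ ∈ L i}
  have B1 : ∀ i, ∀ h ∈ H, ∀ x ∈ B i, h * x ∈ B i ∧ x * h ∈ B i := by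
    rintro i h hh x ⟨a, ha, b, hb, e⟩
    exact ⟨⟨a * h⁻¹, H.mul_mem ha (H.inv_mem hh), b, hb, by simpa [mul_assoc] using e⟩,
      ⟨a, ha, h⁻¹ * b, H.mul_mem (H.inv_mem hh) hb, by simpa [mul_assoc] using e⟩⟩
  obtain ⟨c, hc⟩ := reservoir H hH.ge B (fun i => Subgroup.closure (H ∪ {g i}))
    (fun i x hx => Subgroup.subset_closure (Or.inl hx))
    (fun h hh x => ⟨by
      ext i
      exact ⟨fun h1 => by simpa using (B1 i _ (H.inv_mem hh) _ h1).1, fun h1 => (B1 i h hh x h1).1⟩,
      by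
      ext i
      exact ⟨fun h1 => by simpa using (B1 i _ (H.inv_mem hh) _ h1).2, fun h1 => (B1 i h hh x h1).2⟩⟩)
    (fun x => by
      rw [hH, le_aleph0_iff_set_countable]
      refine (hHc.biUnion fun a _ => hHc.biUnion fun b _ =>
        ((L2 (a * x * b)).union (L2 (a * x * b)⁻¹)).countable).mono ?_
      rintro i ⟨a, ha, b, hb, e⟩
      exact mem_biUnion ha (mem_biUnion hb e))
    (fun i x => by
      have a1 : g i ∈ Subgroup.closure ((H : Set G) ∪ {g i}) := Subgroup.subset_closure (Or.inr rfl)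
      constructor
      · rcases L1 i x with h | h
        · exact ⟨1, Subgroup.one_mem _, 1, H.one_mem, 1, H.one_mem, Or.inl (by simpa using h)⟩
        · exact ⟨_, a1, 1, H.one_mem, 1, H.one_mem, Or.inl (by simpa using h)⟩
      · rcases L1 i x⁻¹ with h | h
        · exact ⟨1, Subgroup.one_mem _, 1, H.one_mem, 1, H.one_mem, Or.inr (by simpa using h)⟩
        · exact ⟨_, Subgroup.inv_mem _ a1, 1, H.one_mem, 1, H.one_mem, Or.inr (by simpa using h)⟩)
  refine ⟨c, fun i => large_of_meets ?_ (hc i)⟩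
  refine ((closure_card _).trans (max_le ((mk_union_le _ _).trans ?_) le_rfl)).trans_lt
    aleph0_lt_aleph_one
  exact add_le_of_le le_rfl hH.le (by simpa using one_lt_aleph0.le)

/-- Every infinite group `G` has a partition into `|G|` subsets, each left and right `ℵ₁`-large. -/
theorem result (G : Type u) [Group G] [Infinite G] :
    ∃ P : Set (Set G), Setoid.IsPartition P ∧ #P = #G ∧
      ∀ A ∈ P, LeftLarge (ℵ_ 1) A ∧ RightLarge (ℵ_ 1) A := by
  obtain ⟨c, hc⟩ := colouring G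
  have hs : ∀ i, ∃ x, c x = i := by
    intro i
    obtain ⟨F, -, h⟩ := (hc i).1
    obtain ⟨_, -, x, hx, -⟩ := (h ▸ mem_univ 1 : (1 : G) ∈ F * c ⁻¹' {i})
    exact ⟨x, hx⟩
  refine ⟨range fun i => c ⁻¹' {i}, ⟨?_, fun x => ⟨c ⁻¹' {c x}, ⟨⟨_, rfl⟩, rfl⟩, ?_⟩⟩, ?_, ?_⟩
  · rintro ⟨i, hi⟩
    obtain ⟨x, hx⟩ := hs i
    have : x ∈ c ⁻¹' {i} := hx
    have hi' : c ⁻¹' {i} = ∅ := hi
    rw [hi'] at this
    exact this
  · rintro _ ⟨⟨i, rfl⟩, hx⟩
    have : c x = i := hx
    rw [this]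
  · refine mk_range_eq _ fun i j e => ?_
    obtain ⟨x, hx⟩ := hs i
    have h1 : x ∈ c ⁻¹' {i} := hx
    have e' : c ⁻¹' {i} = c ⁻¹' {j} := e
    rw [e'] at h1
    exact hx.symm.trans h1
  · rintro _ ⟨i, rfl⟩
    exact hc i

end Pool.Agent.Results.MP_e349a0_al.AlephOne
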